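import Pool.Agent.Helper39.Trans.Goals

/-!
# Counting vertices from certificates (packet C of MP_549fdb_co)
-/

set_option autoImplicit false
set_option linter.unusedSectionVars false
set_option linter.unusedVariables false

namespace Pool.Agent.Helper31.Trans

open Finset Classical Matrix Pool.Agent.Helper39.Trans

/-! ### General counting tools -/

lemma count_by_rel {Q α : Type} [Fintype α] (X : Set Q) (Rel : Q → α → Prop)
    (hex : ∀ q ∈ X, ∃ c, Rel q c)
    (huni : ∀ q ∈ X, ∀ q' ∈ X, ∀ c, Rel q c → Rel q' c → q = q') :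
    X.Finite ∧ X.ncard ≤ Fintype.card α := by
  have hex' : ∀ q : X, ∃ c, Rel q.1 c := fun q => hex q.1 q.2
  choose f hf using hex'
  have hinj : Function.Injective f := by
    intro q q' h
    apply Subtype.ext
    refine huni q.1 q.2 q'.1 q'.2 (f q) (hf q) ?_
    have := hf q'
    rwa [← h] at this
  have hfin : Finite X := Finite.of_injective _ hinj
  refine ⟨Set.toFinite X, ?_⟩
  rw [← Nat.card_coe_set_eq, ← Nat.card_eq_fintype_card]
  exact Nat.card_le_card_of_injective _ hinj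

section dec

variable {ι Λ : Type} [Fintype ι] [Fintype Λ] (grp : ι → Λ) {I : Type}

/-- decoded set of groups -/
noncomputable def gD (r : I → Option ι) (D0 : Finset Λ) : Finset Λ :=
  univ.filter fun l => l ∈ D0 ∨ ∃ i v, r i = some v ∧ grp v = l

omit [Fintype Λ] in
/-- decoded set of functions -/
noncomputable def gT (r : I → Option ι) (b : I → Bool × Bool) : Finset ι :=
  univ.filter fun v => ∃ i, r i = some v ∧ (b i).1 = true

/-- decoded set of active groups -/
noncomputable def gI (r : I → Option ι) (b : I → Bool × Bool) (D0 : Finset Λ) : Finset Λ :=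
  univ.filter fun l => l ∈ D0 ∨ ∃ i v, r i = some v ∧ grp v = l ∧ (b i).2 = true

lemma encode (r : I → Option ι) (R : Finset ι) (hr : ∀ v, v ∈ R ↔ ∃ i, r i = some v)
    (D0 Dq Iq : Finset Λ) (Tq : Finset ι) (h1 : Tq ⊆ R)
    (h2 : ∀ l, l ∈ Dq ↔ l ∈ D0 ∨ ∃ v ∈ R, grp v = l) (h3 : D0 ⊆ Iq) (h4 : Iq ⊆ Dq) :
    ∃ b : I → Bool × Bool, gD grp r D0 = Dq ∧ gT r b = Tq ∧ gI grp r b D0 = Iq := by
  refine ⟨fun i => (decide (∃ v ∈ Tq, r i = some v), decide (∃ v, r i = some v ∧ grp v ∈ Iq)),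
    ?_, ?_, ?_⟩
  · ext l
    simp only [gD, mem_filter, mem_univ, true_and]
    rw [h2]
    constructor
    · rintro (h | ⟨i, v, hi, hv⟩)
      · exact Or.inl h
      · exact Or.inr ⟨v, (hr v).2 ⟨i, hi⟩, hv⟩
    · rintro (h | ⟨v, hv, hl⟩)
      · exact Or.inl h
      · obtain ⟨i, hi⟩ := (hr v).1 hv
        exact Or.inr ⟨i, v, hi, hl⟩
  · ext v
    simp only [gT, mem_filter, mem_univ, true_and, decide_eq_true_eq]
    constructor
    · rintro ⟨i, hi, v', hv', hi'⟩
      rw [hi] at hi'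
      rw [Option.some.inj hi']
      exact hv'
    · intro hv
      obtain ⟨i, hi⟩ := (hr v).1 (h1 hv)
      exact ⟨i, hi, v, hv, hi⟩
  · ext l
    simp only [gI, mem_filter, mem_univ, true_and, decide_eq_true_eq]
    constructor
    · rintro (h | ⟨i, v, hi, hv, v', hi', hv'⟩)
      · exact h3 h
      · rw [hi] at hi'
        rw [← hv, Option.some.inj hi']
        exact hv'
    · intro hl
      rcases (h2 l).1 (h4 hl) with h | ⟨v, hv, hvl⟩
      · exact Or.inl h
      · obtain ⟨i, hi⟩ := (hr v).1 hv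
        exact Or.inr ⟨i, v, hi, hvl, v, hi, by rw [hvl]; exact hl⟩

end dec

section sys

variable {n : ℕ} {ι Λ κ : Type} [Fintype ι] [Fintype Λ] [Fintype κ] {A : Sys n ι Λ κ}

lemma mem_fib {l : Λ} {v : ι} : v ∈ A.fib l ↔ A.grp v = l := by
  simp [Sys.fib]

lemma W_sub_fib (l : Λ) (q : Fin n → ℝ) : A.W l q ⊆ A.fib l := Finset.filter_subset _ _

lemma W_nonempty (hF : A.Full) (l : Λ) (q : Fin n → ℝ) : (A.W l q).Nonempty := by
  obtain ⟨v0, hv0⟩ := hF l
  have hne : (A.fib l).Nonempty := ⟨v0, mem_fib.2 hv0⟩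
  obtain ⟨v, hv, hmin⟩ := Finset.exists_min_image (A.fib l) (fun v => A.h v q) hne
  exact ⟨v, Finset.mem_filter.2 ⟨hv, hmin⟩⟩

lemma W_card_pos (hF : A.Full) (l : Λ) (q : Fin n → ℝ) : 1 ≤ (A.W l q).card :=
  Finset.card_pos.2 (W_nonempty hF l q)

lemma mem_Ig {l : Λ} {q : Fin n → ℝ} : l ∈ A.Ig q ↔ A.Act l q := by simp [Sys.Ig]

lemma mem_Jg {l : Λ} {q : Fin n → ℝ} : l ∈ A.Jg q ↔ 2 ≤ (A.W l q).card := by simp [Sys.Jg]

lemma Ig_sub_Dg (q : Fin n → ℝ) : A.Ig q ⊆ A.Dg q := Finset.subset_union_left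

lemma Jg_sub_Dg (q : Fin n → ℝ) : A.Jg q ⊆ A.Dg q := Finset.subset_union_right

/-- number of constraints of one group -/
noncomputable def cc (A : Sys n ι Λ κ) (q : Fin n → ℝ) (l : Λ) : ℕ :=
  ((A.W l q).card - 1) + (if l ∈ A.Ig q then 1 else 0)

lemma cc_pos (hF : A.Full) {q : Fin n → ℝ} {l : Λ} (hl : l ∈ A.Dg q) : 1 ≤ cc A q l := by
  unfold cc
  rcases Finset.mem_union.1 hl with h | h
  · rw [if_pos h]; omega
  · have := mem_Jg.1 h
    omega

/-- sum of the constraints at a vertex -/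
lemma sum_cc {q : Fin n → ℝ} (hq : A.Vtx univ q) :
    ∑ l ∈ A.Dg q, cc A q l + (A.Bt q).card = n := by
  have h := hq.2
  unfold Sys.cnt at h
  have h1 : (univ.filter fun l => A.Act l q).card = ∑ l, (if l ∈ A.Ig q then 1 else 0) := by
    rw [Finset.card_filter]
    refine Finset.sum_congr rfl fun l _ => ?_
    simp only [mem_Ig]
  rw [h1, ← Finset.sum_add_distrib] at h
  have h2 : ∑ l ∈ A.Dg q, cc A q l = ∑ l, cc A q l := by
    refine Finset.sum_subset (Finset.subset_univ _) fun l _ hl => ?_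
    unfold cc
    have h3 : l ∉ A.Ig q := fun h => hl (Ig_sub_Dg q h)
    have h4 : ¬ 2 ≤ (A.W l q).card := fun h => hl (Jg_sub_Dg q (mem_Jg.2 h))
    rw [if_neg h3]
    omega
  rw [h2]
  exact h

/-- the certificates at one vertex -/
structure Cert (A : Sys n ι Λ κ) (q : Fin n → ℝ) (T : Bool → Finset ι) : Prop where
  mem : ∀ s, ∀ v ∈ T s, v ∈ A.W (A.grp v) q ∧ A.grp v ∈ A.Dg q
  part : ∀ v, v ∈ A.W (A.grp v) q → A.grp v ∈ A.Dg q → (v ∈ T true ↔ v ∉ T false)
  ne : ∀ s, ∀ l ∈ A.Dg q, l ∉ A.Ig q → (T s ∩ A.fib l).Nonempty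

variable {q : Fin n → ℝ} {T : Bool → Finset ι}

lemma Cert.card_W (hT : Cert A q T) {l : Λ} (hl : l ∈ A.Dg q) :
    (A.W l q).card = (T true ∩ A.fib l).card + (T false ∩ A.fib l).card := by
  have h1 : A.W l q = (T true ∩ A.fib l) ∪ (T false ∩ A.fib l) := by
    ext v
    simp only [mem_union, mem_inter]
    constructor
    · intro hv
      have hg : A.grp v = l := mem_fib.1 (W_sub_fib l q hv)
      have hp := hT.part v (by rw [hg]; exact hv) (by rw [hg]; exact hl)
      by_cases h : v ∈ T false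
      · exact Or.inr ⟨h, mem_fib.2 hg⟩
      · exact Or.inl ⟨hp.2 h, mem_fib.2 hg⟩
    · rintro (⟨h, hg⟩ | ⟨h, hg⟩)
      · have := (hT.mem true v h).1
        rwa [mem_fib.1 hg] at this
      · have := (hT.mem false v h).1
        rwa [mem_fib.1 hg] at this
  have h2 : Disjoint (T true ∩ A.fib l) (T false ∩ A.fib l) := by
    rw [Finset.disjoint_left]
    intro v h3 h4
    rw [mem_inter] at h3 h4
    have := hT.mem true v h3.1
    exact ((hT.part v this.1 this.2).1 h3.1) h4.1
  rw [h1, Finset.card_union_of_disjoint h2]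

/-- the two sizes are positive for a group that is not active -/
lemma Cert.card_pos (hT : Cert A q T) {l : Λ} (hl : l ∈ A.Dg q) (hI : l ∉ A.Ig q) (s : Bool) :
    1 ≤ (T s ∩ A.fib l).card := Finset.card_pos.2 (hT.ne s l hl hI)

lemma Cert.le_one (hF : A.Full) (hT : Cert A q T) {l : Λ} (hl : l ∈ A.Dg q)
    (hc : cc A q l = 1) (s : Bool) : (T s ∩ A.fib l).card ≤ 1 := by
  have h1 := hT.card_W hl
  have h2 := W_card_pos hF l q
  unfold cc at hc
  by_cases hI : l ∈ A.Ig q
  · rw [if_pos hI] at hc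
    cases s <;> omega
  · rw [if_neg hI] at hc
    have h3 := hT.card_pos hl hI true
    have h4 := hT.card_pos hl hI false
    cases s <;> omega

lemma Cert.exists_le_one (hF : A.Full) (hT : Cert A q T) {l : Λ} (hl : l ∈ A.Dg q)
    (hc : cc A q l = 2) : ∃ s, (T s ∩ A.fib l).card ≤ 1 := by
  have h1 := hT.card_W hl
  have h2 := W_card_pos hF l q
  by_contra hno
  push Not at hno
  have h5 := hno true
  have h6 := hno false
  unfold cc at hc
  by_cases hI : l ∈ A.Ig q
  · rw [if_pos hI] at hc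
    omega
  · rw [if_neg hI] at hc
    omega

lemma Cert.max_le (hF : A.Full) (hT : Cert A q T) {l : Λ} (hl : l ∈ A.Dg q) (s : Bool) :
    max (T s ∩ A.fib l).card 1 ≤ cc A q l := by
  have h1 := hT.card_W hl
  have h2 := W_card_pos hF l q
  have h0 := cc_pos hF hl
  unfold cc at h0 ⊢
  by_cases hI : l ∈ A.Ig q
  · rw [if_pos hI] at h0 ⊢
    cases s <;> omega
  · rw [if_neg hI] at h0 ⊢
    have h3 := hT.card_pos hl hI true
    have h4 := hT.card_pos hl hI false
    cases s <;> omega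

lemma Cert.exists_max_le (hF : A.Full) (hT : Cert A q T) {l : Λ} (hl : l ∈ A.Dg q)
    (hc : 2 ≤ cc A q l) : ∃ s, max (T s ∩ A.fib l).card 1 + 1 ≤ cc A q l := by
  have h1 := hT.card_W hl
  have h2 := W_card_pos hF l q
  by_contra hno
  push Not at hno
  have h5 := hno true
  have h6 := hno false
  unfold cc at hc h5 h6
  by_cases hI : l ∈ A.Ig q
  · rw [if_pos hI] at hc h5 h6
    omega
  · rw [if_neg hI] at hc h5 h6
    have h3 := hT.card_pos hl hI true
    have h4 := hT.card_pos hl hI false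
    omega

/-- some side has at most one element of the certificate in every group -/
lemma Cert.exists_side (hF : A.Full) (hq : A.Vtx univ q) (hT : Cert A q T)
    (hD : (A.Dg q).card + 1 = n) :
    ∃ s, ∀ l ∈ A.Dg q, (T s ∩ A.fib l).card ≤ 1 := by
  have hs := sum_cc hq
  by_cases h : ∀ l ∈ A.Dg q, cc A q l = 1
  · exact ⟨true, fun l hl => hT.le_one hF hl (h l hl) true⟩
  · push Not at h
    obtain ⟨l0, hl0, hne⟩ := h
    have h0 := cc_pos hF hl0
    have hsplit := Finset.add_sum_erase (A.Dg q) (cc A q) hl0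
    have hrest : ∀ l ∈ (A.Dg q).erase l0, 1 ≤ cc A q l := fun l hl =>
      cc_pos hF (Finset.mem_of_mem_erase hl)
    have hcardE : ((A.Dg q).erase l0).card + 1 = (A.Dg q).card :=
      Finset.card_erase_add_one hl0
    have hge : ((A.Dg q).erase l0).card ≤ ∑ l ∈ (A.Dg q).erase l0, cc A q l := by
      have := Finset.card_nsmul_le_sum ((A.Dg q).erase l0) (cc A q) 1 hrest
      simpa using this
    have h2 : cc A q l0 = 2 := by omega
    have heq : ∑ l ∈ (A.Dg q).erase l0, cc A q l = ((A.Dg q).erase l0).card := by omega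
    obtain ⟨s, hs0⟩ := hT.exists_le_one hF hl0 h2
    refine ⟨s, fun l hl => ?_⟩
    by_cases hll : l = l0
    · rw [hll]; exact hs0
    · have hle : l ∈ (A.Dg q).erase l0 := Finset.mem_erase.2 ⟨hll, hl⟩
      refine hT.le_one hF hl ?_ s
      by_contra hc
      have h3 : 2 ≤ cc A q l := by have := hrest l hle; omega
      have hlt : ∑ l ∈ (A.Dg q).erase l0, 1 < ∑ l ∈ (A.Dg q).erase l0, cc A q l :=
        Finset.sum_lt_sum (fun i hi => hrest i hi) ⟨l, hle, by omega⟩
      rw [heq] at hlt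
      simp at hlt

lemma enum (R : Finset ι) (m : ℕ) (h : R.card ≤ m) :
    ∃ r : Fin m → Option ι, ∀ v, v ∈ R ↔ ∃ i, r i = some v := by
  let e := R.equivFin
  refine ⟨fun i => if hi : i.1 < R.card then some (e.symm ⟨i.1, hi⟩).1 else none, fun v => ?_⟩
  constructor
  · intro hv
    refine ⟨⟨(e ⟨v, hv⟩).1, lt_of_lt_of_le (e ⟨v, hv⟩).2 h⟩, ?_⟩
    simp
  · rintro ⟨i, hi⟩
    by_cases hc : i.1 < R.card
    · simp only [hc, dif_pos, Option.some.injEq] at hi
      rw [← hi]
      exact (e.symm ⟨i.1, hc⟩).2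
    · simp [hc] at hi

/-- the certificates of all vertices -/
structure Certs (A : Sys n ι Λ κ) (T : Bool → (Fin n → ℝ) → Finset ι)
    (TB : Bool → (Fin n → ℝ) → Finset κ) : Prop where
  cert : ∀ q, A.Vtx univ q → Cert A q (fun s => T s q)
  inj : ∀ s q q', A.Vtx univ q → A.Vtx univ q' → A.Ig q = A.Ig q' → A.Dg q = A.Dg q' →
    T s q = T s q' → TB s q = TB s q' → q = q'

lemma exists_certs (hC : CertCore n κ) (hF : A.Full) (hG : A.GP) :
    ∃ (T : Bool → (Fin n → ℝ) → Finset ι) (TB : Bool → (Fin n → ℝ) → Finset κ), Certs A T TB := by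
  obtain ⟨T, TB, h1, h2⟩ := hC ι Λ A hF hG
  exact ⟨T, TB, ⟨fun q hq => ⟨(h1 q hq).1, (h1 q hq).2.1, (h1 q hq).2.2⟩, h2⟩⟩

variable {TT : Bool → (Fin n → ℝ) → Finset ι} {TB : Bool → (Fin n → ℝ) → Finset κ}

lemma vtx_finite (hC : Certs A TT TB) : {q | A.Vtx univ q}.Finite := by
  refine (count_by_rel {q | A.Vtx univ q}
    (fun q (c : (Finset ι × Finset κ) × (Finset Λ × Finset Λ)) =>
      TT true q = c.1.1 ∧ TB true q = c.1.2 ∧ A.Ig q = c.2.1 ∧ A.Dg q = c.2.2) ?_ ?_).1
  · intro q _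
    exact ⟨((TT true q, TB true q), (A.Ig q, A.Dg q)), rfl, rfl, rfl, rfl⟩
  · rintro q hq q' hq' c ⟨h1, h2, h3, h4⟩ ⟨h1', h2', h3', h4'⟩
    exact hC.inj true q q' hq hq' (h3.trans h3'.symm) (h4.trans h4'.symm) (h1.trans h1'.symm)
      (h2.trans h2'.symm)

/-- counting by representatives -/
lemma count_reps (hF : A.Full) (hC : Certs A TT TB) (G S D0 : Finset Λ) (k : ℕ)
    (X : Set (Fin n → ℝ)) (hX : ∀ q ∈ X, A.Vtx univ q)
    (hk : ∀ q ∈ X, G ⊆ A.Dg q ∧ D0 ⊆ A.Ig q ∧ Disjoint G D0 ∧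
      (∀ l ∈ A.Dg q, l ∉ G → l ∉ D0 → l ∈ S) ∧ (A.Dg q \ (G ∪ D0)).card = k ∧
      ∃ s, (∀ l ∈ A.Dg q, (TT s q ∩ A.fib l).card ≤ 1) ∧ (∀ l ∈ D0, TT s q ∩ A.fib l = ∅)) :
    X.ncard ≤ 2 * 2 ^ Fintype.card κ * (∏ g ∈ G, (A.fib g).card) * A.size S ^ k *
      4 ^ (G.card + k) := by
  have hmain := (count_by_rel X
    (fun q (c : Bool × Finset κ × ((g : {x // x ∈ G}) → {v // v ∈ A.fib g.1}) ×
        (Fin k → {v // v ∈ S.biUnion A.fib}) × (({x // x ∈ G} ⊕ Fin k) → Bool × Bool)) =>
      TB c.1 q = c.2.1 ∧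
      gD A.grp (Sum.elim (fun g => some (c.2.2.1 g).1) (fun j => some (c.2.2.2.1 j).1)) D0 =
        A.Dg q ∧
      gT (Sum.elim (fun g => some (c.2.2.1 g).1) (fun j => some (c.2.2.2.1 j).1)) c.2.2.2.2 =
        TT c.1 q ∧
      gI A.grp (Sum.elim (fun g => some (c.2.2.1 g).1) (fun j => some (c.2.2.2.1 j).1))
        c.2.2.2.2 D0 = A.Ig q) ?_ ?_).2
  · refine hmain.trans ?_
    simp only [Fintype.card_prod, Fintype.card_bool, Fintype.card_finset, Fintype.card_pi,
      Fintype.card_coe, Fintype.card_fin, Fintype.card_sum, Finset.prod_const,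
      Finset.card_univ]
    rw [Finset.prod_coe_sort G (fun g => (A.fib g).card)]
    have hU : (S.biUnion A.fib).card ≤ A.size S := by
      unfold Sys.size
      exact Finset.card_biUnion_le
    have hUk : (S.biUnion A.fib).card ^ k ≤ A.size S ^ k := Nat.pow_le_pow_left hU k
    calc 2 * (2 ^ Fintype.card κ * ((∏ g ∈ G, (A.fib g).card) *
          ((S.biUnion A.fib).card ^ k * (2 * 2) ^ (G.card + k))))
        ≤ 2 * (2 ^ Fintype.card κ * ((∏ g ∈ G, (A.fib g).card) *
          (A.size S ^ k * (2 * 2) ^ (G.card + k)))) := by gcongr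
      _ = _ := by norm_num; ring
  · -- existence of a code
    intro q hq
    obtain ⟨hG, hD0, hGD, hS, hcard, s, hs1, hs0⟩ := hk q hq
    have hv := hX q hq
    have hT := hC.cert q hv
    -- representatives
    obtain ⟨sec, hsec⟩ := hF.hasRightInverse
    let rep : Λ → ι := fun l => if h : (TT s q ∩ A.fib l).Nonempty then h.choose else sec l
    have hrep : ∀ l, rep l ∈ A.fib l := by
      intro l
      by_cases h : (TT s q ∩ A.fib l).Nonempty
      · have : rep l = h.choose := dif_pos h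
        rw [this]
        exact (Finset.mem_inter.1 h.choose_spec).2
      · have : rep l = sec l := dif_neg h
        rw [this]
        exact mem_fib.2 (hsec l)
    have hrep2 : ∀ l ∈ A.Dg q, ∀ v ∈ TT s q ∩ A.fib l, rep l = v := by
      intro l hl v hv
      have h : (TT s q ∩ A.fib l).Nonempty := ⟨v, hv⟩
      have h1 : rep l = h.choose := dif_pos h
      rw [h1]
      exact Finset.card_le_one.1 (hs1 l hl) _ h.choose_spec _ hv
    let e := (A.Dg q \ (G ∪ D0)).equivFinOfCardEq hcard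
    have hmemU : ∀ j : Fin k, rep (e.symm j).1 ∈ S.biUnion A.fib := by
      intro j
      have h1 := (e.symm j).2
      rw [Finset.mem_sdiff, Finset.mem_union, not_or] at h1
      exact Finset.mem_biUnion.2 ⟨_, hS _ h1.1 h1.2.1 h1.2.2, hrep _⟩
    let x : (g : {x // x ∈ G}) → {v // v ∈ A.fib g.1} := fun g => ⟨rep g.1, hrep g.1⟩
    let y : Fin k → {v // v ∈ S.biUnion A.fib} := fun j => ⟨rep (e.symm j).1, hmemU j⟩
    let r : ({x // x ∈ G} ⊕ Fin k) → Option ι :=
      Sum.elim (fun g => some (x g).1) (fun j => some (y j).1)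
    have hr : ∀ v, v ∈ (A.Dg q \ D0).image rep ↔ ∃ i, r i = some v := by
      intro v
      rw [Finset.mem_image]
      constructor
      · rintro ⟨l, hl, rfl⟩
        rw [Finset.mem_sdiff] at hl
        by_cases hlG : l ∈ G
        · exact ⟨Sum.inl ⟨l, hlG⟩, rfl⟩
        · have hmem : l ∈ A.Dg q \ (G ∪ D0) := by
            rw [Finset.mem_sdiff, Finset.mem_union, not_or]
            exact ⟨hl.1, hlG, hl.2⟩
          refine ⟨Sum.inr (e ⟨l, hmem⟩), ?_⟩
          show some (rep (e.symm (e ⟨l, hmem⟩)).1) = some (rep l)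
          rw [Equiv.symm_apply_apply]
      · rintro ⟨i, hi⟩
        rcases i with g | j
        · have h1 : rep g.1 = v := Option.some.inj hi
          refine ⟨g.1, ?_, h1⟩
          rw [Finset.mem_sdiff]
          exact ⟨hG g.2, fun h => (Finset.disjoint_left.1 hGD) g.2 h⟩
        · have h1 : rep (e.symm j).1 = v := Option.some.inj hi
          refine ⟨(e.symm j).1, ?_, h1⟩
          have h2 := (e.symm j).2
          rw [Finset.mem_sdiff, Finset.mem_union, not_or] at h2
          rw [Finset.mem_sdiff]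
          exact ⟨h2.1, h2.2.2⟩
    obtain ⟨b, hb1, hb2, hb3⟩ := encode A.grp r ((A.Dg q \ D0).image rep) hr D0 (A.Dg q) (A.Ig q)
      (TT s q) (by
        intro v hv
        have h1 := (hT.mem s v hv).2
        have h2 : v ∈ TT s q ∩ A.fib (A.grp v) := Finset.mem_inter.2 ⟨hv, mem_fib.2 rfl⟩
        have h3 : A.grp v ∉ D0 := fun h => by
          rw [hs0 _ h] at h2
          exact absurd h2 (Finset.notMem_empty v)
        rw [Finset.mem_image]
        exact ⟨A.grp v, Finset.mem_sdiff.2 ⟨h1, h3⟩, hrep2 _ h1 v h2⟩)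
      (by
        intro l
        constructor
        · intro hl
          by_cases h : l ∈ D0
          · exact Or.inl h
          · exact Or.inr ⟨rep l, Finset.mem_image.2 ⟨l, Finset.mem_sdiff.2 ⟨hl, h⟩, rfl⟩,
              mem_fib.1 (hrep l)⟩
        · rintro (h | ⟨v, hv, hvl⟩)
          · exact Ig_sub_Dg q (hD0 h)
          · obtain ⟨l', hl', rfl⟩ := Finset.mem_image.1 hv
            rw [mem_fib.1 (hrep l')] at hvl
            rw [← hvl]
            exact (Finset.mem_sdiff.1 hl').1)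
      hD0 (Ig_sub_Dg q)
    exact ⟨(s, TB s q, x, y, b), rfl, hb1, hb2, hb3⟩
  · rintro q hq q' hq' c ⟨h1, h2, h3, h4⟩ ⟨h1', h2', h3', h4'⟩
    exact hC.inj c.1 q q' (hX q hq) (hX q' hq') (h4.symm.trans h4') (h2.symm.trans h2')
      (h3.symm.trans h3') (h1.trans h1'.symm)

/-- counting the vertices with fewer than `n` defining groups -/
lemma count_nonpure (hF : A.Full) (hC : Certs A TT TB) :
    {q | A.Vtx univ q ∧ (A.Dg q).card < n}.ncard ≤
      2 * 2 ^ Fintype.card κ * (Fintype.card ι + 1) ^ (n - 1) * 4 ^ (n - 1) := by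
  have hmain := (count_by_rel {q | A.Vtx univ q ∧ (A.Dg q).card < n}
    (fun q (c : Bool × Finset κ × (Fin (n - 1) → Option ι) × (Fin (n - 1) → Bool × Bool)) =>
      TB c.1 q = c.2.1 ∧ gD A.grp c.2.2.1 ∅ = A.Dg q ∧ gT c.2.2.1 c.2.2.2 = TT c.1 q ∧
      gI A.grp c.2.2.1 c.2.2.2 ∅ = A.Ig q) ?_ ?_).2
  · refine hmain.trans ?_
    simp only [Fintype.card_prod, Fintype.card_bool, Fintype.card_finset, Fintype.card_pi,
      Fintype.card_fin, Fintype.card_option, Finset.prod_const, Finset.card_univ]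
    apply le_of_eq
    norm_num
    ring
  · rintro q ⟨hv, hlt⟩
    have hT := hC.cert q hv
    have hs := sum_cc hv
    -- the side
    have hside : ∃ s, ∑ l ∈ A.Dg q, max (TT s q ∩ A.fib l).card 1 ≤ n - 1 := by
      by_cases hB : (A.Bt q).card = 0
      · have h1 : (A.Dg q).card < ∑ l ∈ A.Dg q, cc A q l := by omega
        have h2 : ∃ l0 ∈ A.Dg q, 2 ≤ cc A q l0 := by
          by_contra hno
          push Not at hno
          have : ∑ l ∈ A.Dg q, cc A q l ≤ ∑ l ∈ A.Dg q, 1 :=
            Finset.sum_le_sum fun l hl => by have := hno l hl; omega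
          simp at this
          omega
        obtain ⟨l0, hl0, h3⟩ := h2
        obtain ⟨s, hs'⟩ := hT.exists_max_le hF hl0 h3
        refine ⟨s, ?_⟩
        have h4 := Finset.add_sum_erase (A.Dg q) (cc A q) hl0
        have h5 := Finset.add_sum_erase (A.Dg q) (fun l => max (TT s q ∩ A.fib l).card 1) hl0
        have h6 : ∑ l ∈ (A.Dg q).erase l0, max (TT s q ∩ A.fib l).card 1 ≤
            ∑ l ∈ (A.Dg q).erase l0, cc A q l :=
          Finset.sum_le_sum fun l hl => hT.max_le hF (Finset.mem_of_mem_erase hl) s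
        omega
      · refine ⟨true, ?_⟩
        have h6 : ∑ l ∈ A.Dg q, max (TT true q ∩ A.fib l).card 1 ≤ ∑ l ∈ A.Dg q, cc A q l :=
          Finset.sum_le_sum fun l hl => hT.max_le hF hl true
        omega
    obtain ⟨s, hsum⟩ := hside
    obtain ⟨sec, hsec⟩ := hF.hasRightInverse
    let Rl : Λ → Finset ι := fun l =>
      if (TT s q ∩ A.fib l).Nonempty then TT s q ∩ A.fib l else {sec l}
    have hRl1 : ∀ l, (Rl l).card ≤ max (TT s q ∩ A.fib l).card 1 := by
      intro l
      by_cases h : (TT s q ∩ A.fib l).Nonempty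
      · have : Rl l = TT s q ∩ A.fib l := if_pos h
        rw [this]
        exact le_max_left _ _
      · have : Rl l = {sec l} := if_neg h
        rw [this, Finset.card_singleton]
        exact le_max_right _ _
    have hRl2 : ∀ l, ∀ v ∈ Rl l, A.grp v = l := by
      intro l v hv
      by_cases h : (TT s q ∩ A.fib l).Nonempty
      · have h1 : Rl l = TT s q ∩ A.fib l := if_pos h
        rw [h1] at hv
        exact mem_fib.1 (Finset.mem_inter.1 hv).2
      · have h1 : Rl l = {sec l} := if_neg h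
        rw [h1, Finset.mem_singleton] at hv
        rw [hv]
        exact hsec l
    have hRl3 : ∀ l, (Rl l).Nonempty := by
      intro l
      by_cases h : (TT s q ∩ A.fib l).Nonempty
      · have h1 : Rl l = TT s q ∩ A.fib l := if_pos h
        rw [h1]; exact h
      · have h1 : Rl l = {sec l} := if_neg h
        rw [h1]; exact Finset.singleton_nonempty _
    have hcard : ((A.Dg q).biUnion Rl).card ≤ n - 1 :=
      (Finset.card_biUnion_le.trans (Finset.sum_le_sum fun l _ => hRl1 l)).trans hsum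
    obtain ⟨r, hr⟩ := enum ((A.Dg q).biUnion Rl) (n - 1) hcard
    obtain ⟨b, hb1, hb2, hb3⟩ := encode A.grp r ((A.Dg q).biUnion Rl) hr ∅ (A.Dg q) (A.Ig q)
      (TT s q) (by
        intro v hv
        have h1 := (hT.mem s v hv).2
        have h2 : v ∈ TT s q ∩ A.fib (A.grp v) := Finset.mem_inter.2 ⟨hv, mem_fib.2 rfl⟩
        rw [Finset.mem_biUnion]
        refine ⟨A.grp v, h1, ?_⟩
        have h3 : Rl (A.grp v) = TT s q ∩ A.fib (A.grp v) := if_pos ⟨v, h2⟩
        rw [h3]
        exact h2)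
      (by
        intro l
        constructor
        · intro hl
          obtain ⟨v, hv⟩ := hRl3 l
          exact Or.inr ⟨v, Finset.mem_biUnion.2 ⟨l, hl, hv⟩, hRl2 l v hv⟩
        · rintro (h | ⟨v, hv, hvl⟩)
          · exact absurd h (Finset.notMem_empty l)
          · obtain ⟨l', hl', hv'⟩ := Finset.mem_biUnion.1 hv
            rw [← hvl, hRl2 l' v hv']
            exact hl')
      (Finset.empty_subset _) (Ig_sub_Dg q)
    exact ⟨(s, TB s q, r, b), rfl, hb1, hb2, hb3⟩
  · rintro q hq q' hq' c ⟨h1, h2, h3, h4⟩ ⟨h1', h2', h3', h4'⟩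
    exact hC.inj c.1 q q' hq.1 hq'.1 (h4.symm.trans h4') (h2.symm.trans h2')
      (h3.symm.trans h3') (h1.trans h1'.symm)

end sys

theorem counts (n : ℕ) (κ : Type) [Fintype κ] : LinFacts n κ → CertCore n κ →
    CountDef n κ ∧ CountAct n κ ∧ CountNonpure n κ := by
  intro _ hCC
  refine ⟨⟨2 * 2 ^ Fintype.card κ * 4 ^ n, ?_⟩, ⟨2 * 2 ^ Fintype.card κ * 4 ^ n, ?_⟩,
    ⟨2 * 2 ^ Fintype.card κ * 4 ^ (n - 1), ?_⟩⟩
  · intro ι Λ _ _ A hF hG G S hGS
    obtain ⟨TT, TB, hC⟩ := exists_certs (A := A) hCC hF hG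
    refine ⟨(vtx_finite hC).subset fun q hq => hq.1, ?_⟩
    have h := count_reps hF hC G S ∅ (n - 1 - G.card) (A.DefSet G S) (fun q hq => hq.1) ?_
    · by_cases hne : (A.DefSet G S).Nonempty
      · obtain ⟨q, hq⟩ := hne
        have hGc : G.card ≤ (A.Dg q).card :=
          Finset.card_le_card (hq.2.2.2.trans (Jg_sub_Dg q))
        have hD := hq.2.1
        have h4 : 4 ^ (G.card + (n - 1 - G.card)) ≤ 4 ^ n :=
          Nat.pow_le_pow_right (by norm_num) (by omega)
        calc _ ≤ _ := h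
          _ ≤ 2 * 2 ^ Fintype.card κ * (∏ g ∈ G, (A.fib g).card) *
              A.size S ^ (n - 1 - G.card) * 4 ^ n := by gcongr
          _ = _ := by ring
      · rw [Set.not_nonempty_iff_eq_empty] at hne
        rw [hne, Set.ncard_empty]
        exact Nat.zero_le _
    · intro q hq
      obtain ⟨hv, hD, hDS, hGJ⟩ := hq
      have hGD : G ⊆ A.Dg q := hGJ.trans (Jg_sub_Dg q)
      refine ⟨hGD, Finset.empty_subset _, Finset.disjoint_empty_right _, ?_, ?_, ?_⟩
      · intro l hl hlG _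
        rcases Finset.mem_union.1 (hDS hl) with h | h
        · exact absurd h hlG
        · exact h
      · rw [Finset.union_empty, Finset.card_sdiff_of_subset hGD]
        omega
      · obtain ⟨s, hs⟩ := (hC.cert q hv).exists_side hF hv hD
        exact ⟨s, hs, fun l hl => absurd hl (Finset.notMem_empty l)⟩
  · intro ι Λ _ _ A hF hG e G S g0 hGS
    obtain ⟨TT, TB, hC⟩ := exists_certs (A := A) hCC hF hG
    refine ⟨(vtx_finite hC).subset fun q hq => hq.1, ?_⟩
    have hfacts : ∀ q ∈ {q ∈ A.PureSet e G S | g0 ∈ A.Ig q},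
        (∀ l ∈ A.Dg q, cc A q l = 1) ∧ g0 ∉ A.Jg q := by
      rintro q ⟨⟨hv, hD, hI, hDS, hGJ⟩, hg0⟩
      have hs := sum_cc hv
      have h1 : ∀ l ∈ A.Dg q, cc A q l = 1 := by
        intro l hl
        by_contra hc
        have h2 : 2 ≤ cc A q l := by have := cc_pos hF hl; omega
        have hlt : ∑ l ∈ A.Dg q, 1 < ∑ l ∈ A.Dg q, cc A q l :=
          Finset.sum_lt_sum (fun i hi => cc_pos hF hi) ⟨l, hl, by omega⟩
        simp at hlt
        omega
      refine ⟨h1, fun hJ => ?_⟩
      have h2 := h1 g0 (Ig_sub_Dg q hg0)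
      have h3 := mem_Jg.1 hJ
      unfold cc at h2
      rw [if_pos hg0] at h2
      omega
    have h := count_reps hF hC G S {g0} (n - 1 - G.card)
      {q ∈ A.PureSet e G S | g0 ∈ A.Ig q} (fun q hq => hq.1.1) ?_
    · by_cases hne : ({q ∈ A.PureSet e G S | g0 ∈ A.Ig q} : Set (Fin n → ℝ)).Nonempty
      · obtain ⟨q, hq⟩ := hne
        have hf := hfacts q hq
        have hGJ := hq.1.2.2.2.2
        have hD := hq.1.2.1
        have hg0G : g0 ∉ G := fun h => hf.2 (hGJ h)
        have hins : insert g0 G ⊆ A.Dg q := by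
          intro l hl
          rcases Finset.mem_insert.1 hl with h | h
          · rw [h]; exact Ig_sub_Dg q hq.2
          · exact Jg_sub_Dg q (hGJ h)
        have hGc := Finset.card_le_card hins
        rw [Finset.card_insert_of_notMem hg0G] at hGc
        have h4 : 4 ^ (G.card + (n - 1 - G.card)) ≤ 4 ^ n :=
          Nat.pow_le_pow_right (by norm_num) (by omega)
        calc _ ≤ _ := h
          _ ≤ 2 * 2 ^ Fintype.card κ * (∏ g ∈ G, (A.fib g).card) *
              A.size S ^ (n - 1 - G.card) * 4 ^ n := by gcongr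
          _ = _ := by ring
      · rw [Set.not_nonempty_iff_eq_empty] at hne
        rw [hne, Set.ncard_empty]
        exact Nat.zero_le _
    · intro q hq
      have hf := hfacts q hq
      obtain ⟨⟨hv, hD, hI, hDS, hGJ⟩, hg0⟩ := hq
      have hg0G : g0 ∉ G := fun h => hf.2 (hGJ h)
      have hGD : G ⊆ A.Dg q := hGJ.trans (Jg_sub_Dg q)
      have hT := hC.cert q hv
      refine ⟨hGD, Finset.singleton_subset_iff.2 hg0, Finset.disjoint_singleton_right.2 hg0G,
        ?_, ?_, ?_⟩
      · intro l hl hlG _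
        rcases Finset.mem_union.1 (hDS hl) with h | h
        · exact absurd h hlG
        · exact h
      · have hsub : G ∪ {g0} ⊆ A.Dg q := Finset.union_subset hGD
          (Finset.singleton_subset_iff.2 (Ig_sub_Dg q hg0))
        rw [Finset.card_sdiff_of_subset hsub, Finset.card_union_of_disjoint
          (Finset.disjoint_singleton_right.2 hg0G), Finset.card_singleton]
        omega
      · have hw := hT.card_W (Ig_sub_Dg q hg0)
        have hW1 : (A.W g0 q).card = 1 := by
          have h2 := hf.1 g0 (Ig_sub_Dg q hg0)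
          have h3 := W_card_pos hF g0 q
          unfold cc at h2
          rw [if_pos hg0] at h2
          omega
        have hside : ∃ s, (TT s q ∩ A.fib g0).card = 0 := by
          by_cases h : (TT true q ∩ A.fib g0).card = 0
          · exact ⟨true, h⟩
          · refine ⟨false, ?_⟩
            omega
        obtain ⟨s, hs⟩ := hside
        refine ⟨s, fun l hl => hT.le_one hF hl (hf.1 l hl) s, fun l hl => ?_⟩
        rw [Finset.mem_singleton] at hl
        rw [hl]
        exact Finset.card_eq_zero.1 hs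
  · intro ι Λ _ _ A hF hG
    obtain ⟨TT, TB, hC⟩ := exists_certs (A := A) hCC hF hG
    refine ⟨vtx_finite hC, (count_nonpure hF hC).trans (le_of_eq ?_)⟩
    ring

end Pool.Agent.Helper31.Trans
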